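import Pool.Agent.helper567_geo.Hull

/-!
# MP_38fd99_co : geometric graphs whose edges touch the outer `L` convex layers

A geometric graph on `n` vertices without `k` pairwise disjoint edges in which every edge has an
endpoint on one of the `L` outer convex layers of the vertex set has at most
`700 L (k - 1) ^ (5 / 3) n` edges.
-/

set_option linter.unusedSectionVars false

namespace Pool.Agent.Results.MP_38fd99_co.HullLayers

open Finset Pool.Agent.helper567_geo

/-- The closed segment of an edge. -/
def seg {V : Type*} (pos : V → ℝ × ℝ) (e : Sym2 V) : Set (ℝ × ℝ) :=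
  convexHull ℝ (pos '' {v | v ∈ e})

theorem seg_mk {V : Type*} (pos : V → ℝ × ℝ) (u v : V) :
    seg pos s(u, v) = segment ℝ (pos u) (pos v) := by
  unfold seg
  rw [← convexHull_pair]
  congr 1
  ext x
  constructor
  · rintro ⟨w, hw, rfl⟩
    rw [Set.mem_ofPred_eq, Sym2.mem_iff] at hw
    rcases hw with rfl | rfl
    · exact Or.inl rfl
    · exact Or.inr rfl
  · rintro (rfl | rfl)
    · exact ⟨u, by simp, rfl⟩
    · exact ⟨v, by simp, rfl⟩

theorem collinear_of_orient {a b c : ℝ × ℝ} (h : orient a b c = 0) :
    Collinear ℝ ({a, b, c} : Set (ℝ × ℝ)) := by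
  unfold orient at h
  by_cases h1 : b.1 = a.1
  · by_cases h2 : b.2 = a.2
    · have : b = a := Prod.ext h1 h2
      subst this
      rw [Set.insert_eq_of_mem (Set.mem_insert _ _)]
      exact collinear_pair ℝ b c
    · rw [collinear_iff_of_mem (p₀ := a) (by simp)]
      refine ⟨b - a, ?_⟩
      have h3 : b.2 - a.2 ≠ 0 := sub_ne_zero.mpr h2
      intro p hp
      simp only [Set.mem_insert_iff, Set.mem_singleton_iff] at hp
      rcases hp with rfl | rfl | rfl
      · exact ⟨0, by simp⟩
      · exact ⟨1, by simp⟩
      · refine ⟨(p.2 - a.2) / (b.2 - a.2), ?_⟩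
        have h4 : p.1 - a.1 = 0 := by
          rw [h1, sub_self, zero_mul, zero_sub, neg_eq_zero] at h
          exact (mul_eq_zero.mp h).resolve_left h3
        apply Prod.ext
        · simp only [vadd_eq_add, Prod.fst_add, Prod.smul_fst, Prod.fst_sub, smul_eq_mul]
          rw [h1]
          linarith
        · simp only [vadd_eq_add, Prod.snd_add, Prod.smul_snd, Prod.snd_sub, smul_eq_mul]
          rw [div_mul_cancel₀ _ h3]
          ring
  · rw [collinear_iff_of_mem (p₀ := a) (by simp)]
    refine ⟨b - a, ?_⟩
    have h3 : b.1 - a.1 ≠ 0 := sub_ne_zero.mpr h1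
    intro p hp
    simp only [Set.mem_insert_iff, Set.mem_singleton_iff] at hp
    rcases hp with rfl | rfl | rfl
    · exact ⟨0, by simp⟩
    · exact ⟨1, by simp⟩
    · refine ⟨(p.1 - a.1) / (b.1 - a.1), ?_⟩
      apply Prod.ext
      · simp only [vadd_eq_add, Prod.fst_add, Prod.smul_fst, Prod.fst_sub, smul_eq_mul]
        rw [div_mul_cancel₀ _ h3]
        ring
      · simp only [vadd_eq_add, Prod.snd_add, Prod.smul_snd, Prod.snd_sub, smul_eq_mul]
        rw [div_mul_eq_mul_div]
        have h4 : (p.1 - a.1) * (b.2 - a.2) = (p.2 - a.2) * (b.1 - a.1) := by linarith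
        rw [h4, mul_div_cancel_right₀ _ h3]
        ring

/-- A geometric graph on a finite vertex type `V`, at positions `pos` with no three collinear;
`lay` assigns layers such that a vertex of layer `i < L` is not in the convex hull of the other
vertices of layer at least `i`.  If every edge has an endpoint of layer below `L` and there are no
`k` pairwise disjoint edges, then there are at most `700 L (k - 1) ^ (5 / 3) n` edges. -/
theorem result {V : Type*} [Fintype V] (pos : V → ℝ × ℝ)
    (hgp : ∀ u v w : V, u ≠ v → v ≠ w → u ≠ w → ¬ Collinear ℝ {pos u, pos v, pos w})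
    (G : SimpleGraph V) (L : ℕ) (lay : V → ℕ)
    (hlay : ∀ v, lay v < L → pos v ∉ convexHull ℝ (pos '' {u | u ≠ v ∧ lay v ≤ lay u}))
    (hG : ∀ u v, G.Adj u v → lay u < L ∨ lay v < L)
    (k : ℕ)
    (hk : ¬ ∃ F : Finset (Sym2 V), F.card = k ∧ (∀ e ∈ F, e ∈ G.edgeSet) ∧
      (F : Set (Sym2 V)).Pairwise (fun e f => Disjoint (seg pos e) (seg pos f))) :
    (G.edgeSet.ncard : ℝ) ≤ 700 * L * ((k : ℝ) - 1) ^ (5 / 3 : ℝ) * Fintype.card V := by
  classical
  -- `k = K + 1`
  obtain ⟨K, rfl⟩ : ∃ K, k = K + 1 := by
    rcases k with _ | K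
    · exact absurd ⟨∅, by simp⟩ hk
    · exact ⟨K, rfl⟩
  have hk' : ∀ F : Finset (Sym2 V), (∀ e ∈ F, e ∈ G.edgeSet) →
      (F : Set (Sym2 V)).Pairwise (fun e f => Disjoint (seg pos e) (seg pos f)) →
      F.card ≤ K := by
    intro F h1 h2
    by_contra hcon
    push Not at hcon
    obtain ⟨F', hF', hc⟩ := Finset.exists_subset_card_eq (show K + 1 ≤ F.card from hcon)
    exact hk ⟨F', hc, fun e he => h1 e (hF' he), h2.mono (coe_subset.mpr hF')⟩
  have hgp' : ∀ u v w : V, u ≠ v → v ≠ w → u ≠ w → orient (pos u) (pos v) (pos w) ≠ 0 :=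
    fun u v w h1 h2 h3 h => hgp u v w h1 h2 h3 (collinear_of_orient h)
  let E : ℕ → Finset (V × V) := fun i =>
    univ.filter (fun p : V × V => G.Adj p.1 p.2 ∧ lay p.2 = i ∧ i ≤ lay p.1)
  let S : ℕ → Finset V := fun i => univ.filter (fun v => i ≤ lay v)
  have hE : ∀ i ∈ range L, ((E i).card : ℝ) ≤ 700 * (K : ℝ) ^ (5 / 3 : ℝ) * Fintype.card V := by
    intro i hi
    rw [mem_range] at hi
    have h1 := hull_bound pos hgp' K (S i) (E i) ?_ ?_
    · refine h1.trans ?_
      have : ((S i).card : ℝ) ≤ Fintype.card V := by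
        exact_mod_cast card_le_univ (S i)
      gcongr
    · rintro ⟨u, v⟩ hp
      simp only [E, mem_filter, mem_univ, true_and] at hp
      obtain ⟨-, hv, hu⟩ := hp
      simp only [S, mem_filter, mem_univ, true_and]
      refine ⟨hu, hv.ge, ?_⟩
      have := hlay v (by omega)
      intro hc
      apply this
      convert hc using 3
      ext w
      simp only [Set.mem_ofPred_eq, hv]
      tauto
    · intro F hF hFp
      have hadj : ∀ p ∈ F, G.Adj p.1 p.2 := by
        intro p hp
        have := hF hp
        simp only [E, mem_filter, mem_univ, true_and] at this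
        exact this.1
      have hinjF : Set.InjOn (fun p : V × V => s(p.1, p.2)) (F : Set (V × V)) := by
        intro p hp q hq he
        by_contra hne
        have hd := hFp hp hq hne
        simp only at he hd
        rw [← seg_mk, ← seg_mk, he, Set.disjoint_left] at hd
        refine hd (a := pos q.1) ?_ ?_ <;>
        · rw [seg_mk]
          exact left_mem_segment _ _ _
      rw [← card_image_of_injOn hinjF]
      apply hk'
      · intro e he
        rw [mem_image] at he
        obtain ⟨p, hp, rfl⟩ := he
        exact hadj p hp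
      · intro e he f hf hne
        rw [mem_coe, mem_image] at he hf
        obtain ⟨p, hp, rfl⟩ := he
        obtain ⟨q, hq, rfl⟩ := hf
        have hpq : p ≠ q := by
          rintro rfl
          exact hne rfl
        simp only [seg_mk]
        exact hFp hp hq hpq
  have hsub : G.edgeFinset ⊆ (range L).biUnion
      (fun i => (E i).image (fun p : V × V => s(p.1, p.2))) := by
    intro e he
    induction e with
    | _ u v =>
      rw [SimpleGraph.mem_edgeFinset, SimpleGraph.mem_edgeSet] at he
      rw [mem_biUnion]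
      rcases le_total (lay u) (lay v) with h | h
      · refine ⟨lay u, ?_, ?_⟩
        · rw [mem_range]
          rcases hG u v he with h1 | h1 <;> omega
        · rw [mem_image]
          refine ⟨(v, u), ?_, Sym2.eq_swap⟩
          simp only [E, mem_filter, mem_univ, true_and]
          exact ⟨he.symm, h⟩
      · refine ⟨lay v, ?_, ?_⟩
        · rw [mem_range]
          rcases hG u v he with h1 | h1 <;> omega
        · rw [mem_image]
          refine ⟨(u, v), ?_, rfl⟩
          simp only [E, mem_filter, mem_univ, true_and]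
          exact ⟨he, h⟩
  have hcard : (G.edgeSet.ncard : ℝ) ≤ ∑ i ∈ range L, ((E i).card : ℝ) := by
    have h1 : G.edgeSet.ncard = G.edgeFinset.card := by
      rw [← SimpleGraph.coe_edgeFinset, Set.ncard_coe_finset]
    have h2 : G.edgeFinset.card ≤ ∑ i ∈ range L, (E i).card := by
      refine (card_le_card hsub).trans (card_biUnion_le.trans ?_)
      exact sum_le_sum (fun i _ => card_image_le)
    rw [h1]
    exact_mod_cast h2
  calc (G.edgeSet.ncard : ℝ) ≤ ∑ i ∈ range L, ((E i).card : ℝ) := hcard
    _ ≤ ∑ _i ∈ range L, (700 * (K : ℝ) ^ (5 / 3 : ℝ) * Fintype.card V : ℝ) := sum_le_sum hE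
    _ = 700 * L * (((K + 1 : ℕ) : ℝ) - 1) ^ (5 / 3 : ℝ) * Fintype.card V := by
        rw [sum_const, card_range, nsmul_eq_mul]
        push_cast
        rw [add_sub_cancel_right]
        ring

end Pool.Agent.Results.MP_38fd99_co.HullLayers
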